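import Mathlib

set_option autoImplicit false

namespace Pool.Agent.Results.MP_216313_al.Pos

open Polynomial

/-- Relators `a i * x j * (a (i - j))⁻¹ * (x (i + j))⁻¹`, with `a = inl` and `x = inr`. -/
def rels (A : Type) [AddCommGroup A] : Set (FreeGroup (A ⊕ A)) :=
  {w | ∃ i j, w = .of (.inl i) * .of (.inr j) * (.of (.inl (i - j)))⁻¹ * (.of (.inr (i + j)))⁻¹}

def aff {K : Type} [CommRing K] (c : Kˣ) (b : K) : Equiv.Perm K :=
  Equiv.addRight b * c.mulLeft * (Equiv.addRight b)⁻¹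

lemma aff_pow {K : Type} [CommRing K] (c : Kˣ) (b f : K) (n : ℕ) :
    (aff c b ^ n) f = c ^ n * (f - b) + b := by
  induction n with
  | zero => simp
  | succ n ih => rw [pow_succ', Equiv.Perm.mul_apply, ih]; simp [aff]; ring

lemma id1 {K : Type} [CommRing K] {t s u a b : K} (I J f : K) (h1 : t * b = 1) (h2 : s * a = 1)
    (hs : s = 1 - t) (hu : u = 1 - 2 * t) : u * a * (t * (f - J * a) + J * a - I * b) + I * b =
      t * (u * a * (f - (I - J) * b) + (I - J) * b - (I + J) * a) + (I + J) * a := by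
  subst hs hu
  grind

theorem result (A : Type) [AddCommGroup A] (i j : A) (h : (i, j) ≠ (0, 0)) (p q : ℤ) (hp : p ≠ 0)
    (hq : q ≠ 0) : (PresentedGroup.of (.inl i) : PresentedGroup (rels A)) ^ p * .of (.inr j) ^ q ≠
      .of (.inr j) ^ q * .of (.inl i) ^ p := by
  intro hc
  obtain ⟨m, n, hm, hn, hc⟩ : ∃ m n : ℕ, m ≠ 0 ∧ n ≠ 0 ∧ Commute
      ((PresentedGroup.of (.inl i) : PresentedGroup (rels A)) ^ m) (.of (.inr j) ^ n) := by
    obtain ⟨m, rfl | rfl⟩ := p.eq_nat_or_neg <;> obtain ⟨n, rfl | rfl⟩ := q.eq_nat_or_neg <;>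
      exact ⟨m, n, by omega, by omega, by simpa using (show Commute _ _ from hc)⟩
  let _ : Module ℤᵐᵒᵖ A := Module.compHom _ ((RingHom.id ℤ).fromOpposite mul_comm)
  have : IsCentralScalar ℤ A := ⟨fun _ _ => rfl⟩
  let R := TrivSqZeroExt ℤ A
  let K := FractionRing R[X]
  let φ := algebraMap R[X] K
  have hu : ∀ (P : R[X]) (r : R), IsUnit (P.eval r) → IsUnit (φ P) := fun P r h =>
    IsLocalization.map_units K (⟨P, Polynomial.mem_nonZeroDivisors_iff.2 fun a ha => by
      simpa [h.mul_left_eq_zero] using congrArg (eval r) ha⟩ : nonZeroDivisors R[X])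
  obtain ⟨t, ht⟩ := hu X 1 (by simp)
  obtain ⟨s, hs⟩ := hu (1 - X) 0 (by simp)
  obtain ⟨u, hu'⟩ := hu (1 - 2 * X) 0 (by simp)
  have h1 := hu (X ^ n - 1) 0 (by simp [hn])
  have h2 := hu ((1 - 2 * X) ^ m - (1 - X) ^ m) 1 (by simp [hm]; norm_num)
  simp only [map_sub, map_pow, map_mul, map_one, map_ofNat, ← ht] at hs hu' h1 h2
  rw [← hs, ← hu'] at h2
  let c : A → K := fun a => φ (C (TrivSqZeroExt.inr a))
  have t1 := t.mul_inv
  have s1 := s.mul_inv
  let ψ : PresentedGroup (rels A) →* Equiv.Perm K := PresentedGroup.toGroup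
    (f := Sum.elim (fun i => aff (u * s⁻¹) (c i * t⁻¹)) fun j => aff t (c j * s⁻¹)) (by
      rintro _ ⟨i, j, rfl⟩
      simp only [map_mul, map_inv, FreeGroup.lift_apply_of, mul_inv_eq_one, mul_inv_eq_iff_eq_mul,
        one_mul, Sum.elim_inl, Sum.elim_inr]
      ext f
      have k := fun c b f => pow_one (aff (K := K) c b) ▸ aff_pow c b f 1
      have c1 : c (i + j) = c i + c j := by simp [c]
      have c2 : c (i - j) = c i - c j := by simp [c]
      simp only [Equiv.Perm.mul_apply, k, c1, c2, pow_one, Units.val_mul]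
      exact id1 _ _ _ t1 s1 hs hu')
  have k := congrArg (· (c j * s⁻¹)) (hc.map ψ).eq
  simp only [map_pow, ψ, PresentedGroup.toGroup.of, Sum.elim_inl, Sum.elim_inr,
    Equiv.Perm.mul_apply, aff_pow, Units.val_mul, mul_pow] at k
  have s2 : (s : K) ^ m * (s⁻¹ : Kˣ) ^ m = 1 := by rw [← mul_pow, s1, one_pow]
  have k1 : c j * (s⁻¹ : Kˣ) - c i * (t⁻¹ : Kˣ) = 0 := h2.mul_right_eq_zero.1 (h1.mul_right_eq_zero.1 (by
    linear_combination (-s ^ m) * k - (t ^ n - 1) * u ^ m * (c j * (s⁻¹ : Kˣ) - c i * (t⁻¹ : Kˣ)) * s2))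
  have k2 : C (TrivSqZeroExt.inr j) * X = C (TrivSqZeroExt.inr i : R) * (1 - X) :=
    IsFractionRing.injective R[X] K (by
      simp only [map_mul, map_sub, map_one]
      change c j * φ X = c i * (1 - φ X)
      rw [← ht, ← hs]
      linear_combination s * t * k1 - c j * t * s1 + c i * s * t1)
  have k3 := congrArg (fun P => (eval 0 P).snd) k2
  have k4 := congrArg (fun P => (eval 1 P).snd) k2
  simp at k3 k4
  exact h (by rw [← k3, k4])

end Pool.Agent.Results.MP_216313_al.Pos
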